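import Pool.Agent.Lib.MP_cb27ba_nt.TS.Spec
import Pool.Agent.Lib.MP_cb27ba_nt.BD.Weil
import Pool.Agent.Lib.MP_cb27ba_nt.BD.Det

/-!
MP_cb27ba_nt, project TS, module MM: high moments of correlation sums.
-/

set_option autoImplicit false
set_option linter.unusedSectionVars false

namespace MPcb27.TS.MM

open Finset MPcb27 MPcb27.Mom

/-- Weil's bound for a product of shifted characters with a nontrivial total character at some
shift. -/
lemma weil_total (hW : SpecWeil) {p : ℕ} [Fact p.Prime] {J : Type} [Fintype J] [DecidableEq J]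
    (s : J → ZMod p) (Θ : J → MulChar (ZMod p) ℂ) (v : ZMod p)
    (hv : ∏ k ∈ univ.filter (fun k => s k = v), Θ k ≠ 1) :
    ‖∑ u : ZMod p, ∏ i, Θ i (u + s i)‖ ≤ Fintype.card J * Real.sqrt p := by
  classical
  let S : Finset (ZMod p) := univ.image s
  let ψ : ZMod p → MulChar (ZMod p) ℂ := fun v => ∏ i ∈ univ.filter (fun i => s i = v), Θ i
  have h1 : ∑ u : ZMod p, ∏ i, Θ i (u + s i) = WS p S ψ := by
    rw [WS]
    refine Finset.sum_congr rfl fun u _ => ?_
    rw [← Finset.prod_fiberwise_of_maps_to (s := (univ : Finset J)) (t := S) (g := s)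
      (fun i _ => Finset.mem_image_of_mem _ (Finset.mem_univ _))]
    refine Finset.prod_congr rfl fun v hv => ?_
    obtain ⟨i, _, hi⟩ := Finset.mem_image.1 hv
    rw [← prod_char _ ⟨i, by simp [hi]⟩]
    refine Finset.prod_congr rfl fun j hj => ?_
    rw [← (Finset.mem_filter.1 hj).2]
  rw [h1]
  have h2 : ∃ w ∈ S, ψ w ≠ 1 := by
    refine ⟨v, ?_, hv⟩
    by_contra hvS
    apply hv
    rw [Finset.prod_eq_one]
    intro k hk
    exact absurd (Finset.mem_image.2 ⟨k, Finset.mem_univ _, (Finset.mem_filter.1 hk).2⟩) hvS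
  refine (hW p S ψ h2).trans ?_
  gcongr
  exact_mod_cast Finset.card_image_le.trans (by rw [Finset.card_univ])

/-- an `h`-periodic function on `ZMod p`, `h ≠ 0`, is constant -/
lemma const_of_periodic {p : ℕ} [Fact p.Prime] {α : Type} (F : ZMod p → α) (h : ZMod p)
    (hh : h ≠ 0) (hF : ∀ v, F (v + h) = F v) (v w : ZMod p) : F v = F w := by
  have h1 : ∀ n : ℕ, F (v + n * h) = F v := by
    intro n
    induction n with
    | zero => simp
    | succ n ih =>
      rw [← ih, ← hF (v + n * h)]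
      congr 1
      push_cast
      ring
  have h2 := h1 ((w - v) / h).val
  rw [ZMod.natCast_zmod_val, div_mul_cancel₀ _ hh, add_sub_cancel] at h2
  exact h2.symm

lemma prod_split {I R A : Type} [Fintype I] [DecidableEq R] [CommGroup A] (a b : I → R)
    (θ : I → A) (v : R) :
    ∏ k ∈ univ.filter (fun k : I ⊕ I => Sum.elim a b k = v), Sum.elim θ (fun i => (θ i)⁻¹) k =
      (∏ j ∈ univ.filter (fun j => a j = v), θ j) *
        (∏ j ∈ univ.filter (fun j => b j = v), θ j)⁻¹ := by
  rw [Finset.prod_filter, Fintype.prod_sum_type, Finset.prod_filter, Finset.prod_filter,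
    ← Finset.prod_inv_distrib]
  congr 1
  refine Finset.prod_congr rfl fun j _ => ?_
  by_cases hj : b j = v <;> simp [hj]

/-- the correlation sum -/
noncomputable def V {p : ℕ} [Fact p.Prime] {I : Type} [Fintype I] {m : ℕ}
    (θ : I → MulChar (ZMod p) ℂ) (e : Fin m → ZMod p) (h : ZMod p) (t : I → Fin m) : ℂ :=
  ∑ u : ZMod p, ∏ i, θ i (u - e (t i)) * (θ i)⁻¹ (u - h - e (t i))

lemma V_triv {p : ℕ} [Fact p.Prime] {I : Type} [Fintype I] {m : ℕ}
    (θ : I → MulChar (ZMod p) ℂ) (e : Fin m → ZMod p) (h : ZMod p) (t : I → Fin m) :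
    ‖V θ e h t‖ ≤ p := by
  refine (norm_sum_le _ _).trans ?_
  refine (Finset.sum_le_card_nsmul _ _ 1 ?_).trans ?_
  · intro u _
    rw [norm_prod]
    refine Finset.prod_le_one (fun _ _ => norm_nonneg _) (fun i _ => ?_)
    rw [norm_mul]
    exact mul_le_one₀ (norm_char _ _) (norm_nonneg _) (norm_char _ _)
  · simp [ZMod.card]

lemma V_weil (hW : SpecWeil) {p : ℕ} [Fact p.Prime] {I : Type} [Fintype I] [DecidableEq I] {m : ℕ}
    (hI : Fintype.card I < p)
    (θ : I → MulChar (ZMod p) ℂ) (hθ : ∀ i, θ i ≠ 1) (e : Fin m → ZMod p) (h : ZMod p) (hh : h ≠ 0)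
    (he : Function.Injective e) (t : I → Fin m)
    (ht : ¬ Bad t) : ‖V θ e h t‖ ≤ 2 * Fintype.card I * Real.sqrt p := by
  classical
  simp only [Bad] at ht
  push Not at ht
  obtain ⟨i, hi⟩ := ht
  let s : I ⊕ I → ZMod p := Sum.elim (fun i => -e (t i)) (fun i => -h - e (t i))
  let Θ : I ⊕ I → MulChar (ZMod p) ℂ := Sum.elim θ (fun i => (θ i)⁻¹)
  let F : ZMod p → MulChar (ZMod p) ℂ := fun v => ∏ j ∈ univ.filter (fun j => -e (t j) = v), θ j
  have hprod : ∀ v, ∏ k ∈ univ.filter (fun k => s k = v), Θ k = F v * (F (v + h))⁻¹ := by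
    intro v
    have h1 := prod_split (fun i => -e (t i)) (fun i => -h - e (t i)) θ v
    have h2 : univ.filter (fun i => -h - e (t i) = v) = univ.filter (fun j => -e (t j) = v + h) := by
      refine Finset.filter_congr fun j _ => ?_
      constructor
      · intro h3
        rw [← h3]; ring
      · intro h3
        rw [sub_eq_add_neg, h3]; ring
    rw [h2] at h1
    exact h1
  have hex : ∃ v, ∏ k ∈ univ.filter (fun k => s k = v), Θ k ≠ 1 := by
    by_contra hcon
    push Not at hcon
    have h1 : ∀ v, F (v + h) = F v := by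
      intro v
      have := hcon v
      rw [hprod] at this
      exact (mul_inv_eq_one.1 this).symm
    have h2 : ∃ w : ZMod p, w ∉ univ.image (fun j => -e (t j)) := by
      by_contra h3
      push Not at h3
      have h4 : Fintype.card (ZMod p) ≤ #(univ.image (fun j => -e (t j))) := by
        rw [← Finset.card_univ]
        exact Finset.card_le_card (fun w _ => h3 w)
      rw [ZMod.card] at h4
      have h5 : #(univ.image (fun j => -e (t j))) ≤ Fintype.card I :=
        Finset.card_image_le.trans (by rw [Finset.card_univ])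
      omega
    obtain ⟨w, hw⟩ := h2
    have h3 : F w = 1 := by
      simp only [F]
      rw [Finset.prod_eq_one]
      intro k hk
      exact absurd (Finset.mem_image.2 ⟨k, Finset.mem_univ _, (Finset.mem_filter.1 hk).2⟩) hw
    have h4 : F (-e (t i)) = 1 := by
      rw [const_of_periodic F h hh h1 _ w, h3]
    apply hθ i
    rw [← h4]
    simp only [F]
    have h5 : univ.filter (fun j => -e (t j) = -e (t i)) = {i} := by
      ext j
      simp only [Finset.mem_filter, Finset.mem_univ, true_and, Finset.mem_singleton]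
      constructor
      · intro h6
        by_contra hne
        exact hi j hne (he (neg_injective h6))
      · rintro rfl; rfl
    rw [h5, Finset.prod_singleton]
  obtain ⟨v, hv⟩ := hex
  have h0 := weil_total hW s Θ v hv
  have h2 : V θ e h t = ∑ u : ZMod p, ∏ k : I ⊕ I, Θ k (u + s k) := by
    rw [V]
    refine Finset.sum_congr rfl fun u _ => ?_
    rw [Fintype.prod_sum_type, Finset.prod_mul_distrib]
    simp only [Θ, s, Sum.elim_inl, Sum.elim_inr]
    congr 1 <;> refine Finset.prod_congr rfl fun j _ => ?_ <;> congr 1 <;> ring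
  rw [h2]
  refine h0.trans (le_of_eq ?_)
  rw [Fintype.card_sum]
  push_cast
  ring

theorem main (hW : SpecWeil) : SpecMM := by
  classical
  intro r hr
  refine ⟨(r : ℝ) ^ (2 * r) + 4 * r, by positivity, ?_⟩
  intro p _ χ hχ hrp E h hh
  have hp := (Fact.out : p.Prime)
  let m := #E
  let e : Fin m → ZMod p := fun j => (E.equivFin.symm j : ZMod p)
  have he : Function.Injective e := fun a b hab =>
    E.equivFin.symm.injective (Subtype.ext hab)
  let I := Fin r ⊕ Fin r
  have hI : Fintype.card I = 2 * r := by simp [I, two_mul]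
  let θ : I → MulChar (ZMod p) ℂ := Sum.elim (fun _ => χ) (fun _ => χ⁻¹)
  have hθ : ∀ i, θ i ≠ 1 := by
    rintro (i | i)
    · exact hχ
    · exact inv_ne_one.2 hχ
  let g : ZMod p → ℂ := fun u => ∑ j : Fin m, χ (u - e j) * (starRingEnd ℂ) (χ (u - h - e j))
  have hg : ∀ u, ∑ x ∈ E, χ (u - x) * (starRingEnd ℂ) (χ (u - h - x)) = g u := by
    intro u
    simp only [g, e]
    rw [Equiv.sum_comp E.equivFin.symm
      (fun x : E => χ (u - (x : ZMod p)) * (starRingEnd ℂ) (χ (u - h - (x : ZMod p))))]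
    exact (Finset.sum_coe_sort E
      (fun x : ZMod p => χ (u - x) * (starRingEnd ℂ) (χ (u - h - x)))).symm
  have h1 : ∀ u, ((‖g u‖ ^ (2 * r) : ℝ) : ℂ) =
      ∑ t : I → Fin m, ∏ i, θ i (u - e (t i)) * (θ i)⁻¹ (u - h - e (t i)) := by
    intro u
    have h2 : ((‖g u‖ ^ (2 * r) : ℝ) : ℂ) = g u ^ r * (starRingEnd ℂ (g u)) ^ r := by
      rw [← mul_pow, Complex.mul_conj, Complex.normSq_eq_norm_sq, pow_mul]
      push_cast
      rfl
    have h3 : ∀ i : I, (∑ x : Fin m, θ i (u - e x) * (θ i)⁻¹ (u - h - e x)) =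
        Sum.elim (fun _ => g u) (fun _ => starRingEnd ℂ (g u)) i := by
      rintro (i | i)
      · simp only [Sum.elim_inl, θ, g]
        refine Finset.sum_congr rfl fun x _ => ?_
        congr 1
        exact (MulChar.star_apply' χ _).symm
      · simp only [Sum.elim_inr, θ, g]
        rw [map_sum]
        refine Finset.sum_congr rfl fun x _ => ?_
        rw [map_mul, inv_inv, starRingEnd_self_apply]
        congr 1
        exact (MulChar.star_apply' χ _).symm
    have h4 : g u ^ r * (starRingEnd ℂ (g u)) ^ r =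
        ∏ i : I, ∑ x : Fin m, θ i (u - e x) * (θ i)⁻¹ (u - h - e x) := by
      rw [Finset.prod_congr rfl (fun i _ => h3 i), Fintype.prod_sum_type]
      simp
    rw [h2, h4, Finset.prod_univ_sum, Fintype.piFinset_univ]
  have h5 : ((∑ u : ZMod p, ‖g u‖ ^ (2 * r) : ℝ) : ℂ) = ∑ t : I → Fin m, V θ e h t := by
    push_cast
    have h6 : ∀ u : ZMod p, ((‖g u‖ : ℂ) ^ (2 * r)) =
        ∑ t : I → Fin m, ∏ i, θ i (u - e (t i)) * (θ i)⁻¹ (u - h - e (t i)) := by
      intro u
      rw [← h1 u]
      push_cast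
      rfl
    rw [Finset.sum_congr rfl (fun u _ => h6 u), Finset.sum_comm]
    rfl
  have h7 : (∑ u : ZMod p, ‖g u‖ ^ (2 * r) : ℝ) ≤ ∑ t : I → Fin m, ‖V θ e h t‖ := by
    have h8 : (∑ u : ZMod p, ‖g u‖ ^ (2 * r) : ℝ) =
        ‖((∑ u : ZMod p, ‖g u‖ ^ (2 * r) : ℝ) : ℂ)‖ := by
      rw [Complex.norm_real, Real.norm_of_nonneg (by positivity)]
    rw [h8, h5]
    exact norm_sum_le _ _
  rw [Finset.sum_congr rfl (fun u _ => by rw [hg u])]
  refine h7.trans ?_
  rw [← Finset.sum_filter_add_sum_filter_not univ (fun t : I → Fin m => Bad t)]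
  have h9 : ∑ t ∈ univ.filter (fun t : I → Fin m => Bad t), ‖V θ e h t‖ ≤
      ((m : ℝ) ^ r * (r : ℝ) ^ (2 * r)) * p := by
    refine (Finset.sum_le_card_nsmul _ _ (p : ℝ) (fun t _ => V_triv θ e h t)).trans ?_
    rw [nsmul_eq_mul]
    gcongr
    exact_mod_cast card_bad hI hr
  have h10 : ∑ t ∈ univ.filter (fun t : I → Fin m => ¬ Bad t), ‖V θ e h t‖ ≤
      ((m : ℝ) ^ (2 * r)) * ((4 * r) * Real.sqrt p) := by
    refine (Finset.sum_le_card_nsmul _ _ ((4 * r) * Real.sqrt p) (fun t ht => ?_)).trans ?_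
    · have := V_weil hW (by rw [hI]; exact hrp) θ hθ e h hh he t (Finset.mem_filter.1 ht).2
      rw [hI] at this
      push_cast at this
      refine this.trans (le_of_eq ?_)
      ring
    · rw [nsmul_eq_mul]
      gcongr
      have h11 : #(univ.filter (fun t : I → Fin m => ¬ Bad t)) ≤ m ^ (2 * r) := by
        refine (Finset.card_filter_le _ _).trans ?_
        rw [Finset.card_univ, Fintype.card_fun, hI, Fintype.card_fin]
      exact_mod_cast h11
  have h12 : 0 ≤ (m : ℝ) ^ r * p := by positivity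
  have h13 : 0 ≤ (m : ℝ) ^ (2 * r) * Real.sqrt p := by positivity
  have h14 : 0 ≤ (r : ℝ) ^ (2 * r) := by positivity
  have h15 : 0 ≤ 4 * (r : ℝ) := by positivity
  have h16 := mul_nonneg h14 h13
  have h17 := mul_nonneg h15 h12
  have h18 : (m : ℝ) = (#E : ℝ) := rfl
  rw [← h18]
  nlinarith

end MPcb27.TS.MM

namespace MPcb27.TS

/-- module MM -/
theorem specMM : SpecMM :=
  MM.main (MPcb27.specWeil specLid specLvan specAna (specSn (specStep (specNV specKum))))

end MPcb27.TS
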