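import Mathlib

/-!
# MP_cb27ba_nt, project TS (theorem S'): exact statements of the modules

Power saving for the matrix `χ (a - b)` on arbitrary subsets `A ⊆ D + C`, `B ⊆ D' + C'` of sumsets;
`C`, `C'` are ARBITRARY sets of at least `p ^ δ` elements, and
`E (D, D') ≤ p ^ (-1/2-δ) |D|² |D'|²`.

Proof: the norm of the matrix `χ (u + c - e)`, `c ∈ C`, `e ∈ C'`, is at most `N(u)`,
`N(u)² = |C'| + (∑_{c≠c'} F_{c,c'}(u)²)^(1/2)`, `F_{c,c'}(u) = |∑_e χ(u+c-e) conj χ(u+c'-e)|` (OPN);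
Cauchy-Schwarz over `D × D'` (TR3); high moments of `F_{c,c'}` over all `u` (MM, Weil);
Hoelder (FIN).
-/

set_option autoImplicit false

namespace MPcb27.TS

open Finset
open scoped Pointwise

/-- MM: high moments. As BD/Mom (`card_bad`, `W_weil`); the value of the total character at the
shift `-e` is `Θ(e) Θ(e-h)⁻¹` (up to sign conventions), `Θ(e) = ∏_{i : t i = e} θ i`. If all of them
are trivial then `Θ` is `h`-periodic, hence constant, hence `1` because `2 r < p`; but `Θ ≠ 1` at a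
value `e` which is used exactly once. -/
def SpecMM : Prop :=
  ∀ r : ℕ, 1 ≤ r → ∃ C : ℝ, 0 ≤ C ∧ ∀ (p : ℕ) [Fact p.Prime] (χ : MulChar (ZMod p) ℂ), χ ≠ 1 →
    2 * r < p → ∀ (E : Finset (ZMod p)) (h : ZMod p), h ≠ 0 →
      ∑ u : ZMod p, ‖∑ e ∈ E, χ (u - e) * (starRingEnd ℂ) (χ (u - h - e))‖ ^ (2 * r) ≤
        C * ((#E : ℝ) ^ r * p + (#E : ℝ) ^ (2 * r) * Real.sqrt p)

/-- OPN: the norm of a matrix by the Frobenius norm of `K K*` off the diagonal. -/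
def SpecOPN : Prop :=
  ∀ (p : ℕ) [Fact p.Prime] (C E : Finset (ZMod p)) (K : ZMod p → ZMod p → ℂ),
    (∀ c ∈ C, ∀ e ∈ E, ‖K c e‖ ≤ 1) → ∀ x y : ZMod p → ℂ,
    ‖∑ c ∈ C, ∑ e ∈ E, x c * y e * K c e‖ ^ 2 ≤
      (#E + Real.sqrt (∑ c ∈ C, ∑ c' ∈ C.erase c,
        ‖∑ e ∈ E, K c e * (starRingEnd ℂ) (K c' e)‖ ^ 2)) *
        ((∑ c ∈ C, ‖x c‖ ^ 2) * ∑ e ∈ E, ‖y e‖ ^ 2)

/-- TR3: the bound `N (t - s)` for every `(t, s) ∈ D × D'`, then Cauchy-Schwarz (twice). -/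
def SpecTR3 : Prop :=
  ∀ (p : ℕ) [Fact p.Prime] (C E D D' : Finset (ZMod p)) (α β : ZMod p → ZMod p → ℂ)
    (f : ZMod p → ℂ) (N : ZMod p → ℝ), (∀ u, 0 ≤ N u) →
    (∀ (u : ZMod p) (x y : ZMod p → ℂ), ‖∑ c ∈ C, ∑ e ∈ E, x c * y e * f (u + (c - e))‖ ≤
      N u * (Real.sqrt (∑ c ∈ C, ‖x c‖ ^ 2) * Real.sqrt (∑ e ∈ E, ‖y e‖ ^ 2))) →
    ‖∑ t ∈ D, ∑ c ∈ C, ∑ s ∈ D', ∑ e ∈ E, α t c * β s e * f (t + c - (s + e))‖ ^ 2 ≤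
      (∑ q ∈ D ×ˢ D', N (q.1 - q.2) ^ 2) *
        ((∑ t ∈ D, ∑ c ∈ C, ‖α t c‖ ^ 2) * ∑ s ∈ D', ∑ e ∈ E, ‖β s e‖ ^ 2)

/-- HOE: Hoelder. `K ≥ 0` on `ZMod p` with `∑_u K(u)^(2r) ≤ V`. -/
def SpecHOE : Prop :=
  ∀ (p : ℕ) [Fact p.Prime] (D D' : Finset (ZMod p)) (K : ZMod p → ℝ) (r : ℕ) (V : ℝ), 1 ≤ r →
    (∀ u, 0 ≤ K u) → (∑ u : ZMod p, K u ^ (2 * r) ≤ V) →
    (∑ q ∈ D ×ˢ D', Real.sqrt (K (q.1 - q.2))) ^ (4 * r) ≤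
      ((#D : ℝ) * #D') ^ (4 * r - 2) * (D.addEnergy D' * V)

/-- FINW: the four variable form. -/
def FinalW : Prop :=
  ∀ δ : ℝ, 0 < δ → ∃ τ : ℝ, 0 < τ ∧ ∃ P : ℕ, ∀ (p : ℕ) [Fact p.Prime], P ≤ p →
    ∀ C E : Finset (ZMod p), (p : ℝ) ^ δ ≤ #C → (p : ℝ) ^ δ ≤ #E →
    ∀ D D' : Finset (ZMod p),
      ((D.addEnergy D' : ℕ) : ℝ) ≤ (p : ℝ) ^ (-(1 / 2) - δ) * (#D : ℝ) ^ 2 * (#D' : ℝ) ^ 2 →
      ∀ (α β : ZMod p → ZMod p → ℂ) (χ : MulChar (ZMod p) ℂ), χ ≠ 1 →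
        ‖∑ t ∈ D, ∑ c ∈ C, ∑ s ∈ D', ∑ e ∈ E, α t c * β s e * χ (t + c - (s + e))‖ ≤
          (p : ℝ) ^ (-τ) * Real.sqrt ((#D : ℝ) * #C * (#D' * #E)) *
            (Real.sqrt (∑ t ∈ D, ∑ c ∈ C, ‖α t c‖ ^ 2) *
              Real.sqrt (∑ s ∈ D', ∑ e ∈ E, ‖β s e‖ ^ 2))

/-- final theorem -/
def FinalS : Prop :=
  ∀ δ : ℝ, 0 < δ → ∃ τ : ℝ, 0 < τ ∧ ∃ P : ℕ, ∀ (p : ℕ) [Fact p.Prime], P ≤ p →
    ∀ C E : Finset (ZMod p), (p : ℝ) ^ δ ≤ #C → (p : ℝ) ^ δ ≤ #E →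
    ∀ D D' : Finset (ZMod p),
      ((D.addEnergy D' : ℕ) : ℝ) ≤ (p : ℝ) ^ (-(1 / 2) - δ) * (#D : ℝ) ^ 2 * (#D' : ℝ) ^ 2 →
      ∀ A B : Finset (ZMod p), A ⊆ D + C → B ⊆ D' + E →
      ∀ (α β : ZMod p → ℂ) (χ : MulChar (ZMod p) ℂ), χ ≠ 1 →
        ‖∑ a ∈ A, ∑ b ∈ B, α a * β b * χ (a - b)‖ ≤
          (p : ℝ) ^ (-τ) * Real.sqrt ((#D : ℝ) * #C * (#D' * #E)) *
            (Real.sqrt (∑ a ∈ A, ‖α a‖ ^ 2) * Real.sqrt (∑ b ∈ B, ‖β b‖ ^ 2))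

end MPcb27.TS
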