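import Pool.Agent.Lib.MP_cb27ba_nt.TS.Spec

section
/-!
# MP_cb27ba_nt, project TS: the final theorem from the four variable form
-/
set_option autoImplicit false

open Finset
open scoped Pointwise

namespace MPcb27.TS

/-- one representation `a = t + c` for every `a ∈ A` -/
theorem sum_repr {p : ℕ} {M : Type*} [AddCommMonoid M] (D C A : Finset (ZMod p))
    (ch : ZMod p → ZMod p) (h1 : ∀ a ∈ A, ch a ∈ D) (h2 : ∀ a ∈ A, a - ch a ∈ C)
    (F : ZMod p → M) :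
    ∑ t ∈ D, ∑ c ∈ C, (if t + c ∈ A ∧ ch (t + c) = t then F (t + c) else 0) = ∑ a ∈ A, F a := by
  classical
  rw [← sum_product', ← sum_filter (s := D ×ˢ C)
    (p := fun q : ZMod p × ZMod p => q.1 + q.2 ∈ A ∧ ch (q.1 + q.2) = q.1)
    (f := fun q => F (q.1 + q.2))]
  refine sum_nbij' (fun q => q.1 + q.2) (fun a => (ch a, a - ch a)) ?_ ?_ ?_ ?_ ?_
  · intro q hq
    rw [mem_filter] at hq
    exact hq.2.1
  · intro a ha
    rw [mem_filter, mem_product]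
    refine ⟨⟨h1 a ha, h2 a ha⟩, ?_, ?_⟩
    · simpa using ha
    · simp
  · intro q hq
    rw [mem_filter] at hq
    apply Prod.ext
    · exact hq.2.2
    · show q.1 + q.2 - ch (q.1 + q.2) = q.2
      rw [hq.2.2, add_sub_cancel_left]
  · intro a _
    show ch a + (a - ch a) = a
    rw [add_sub_cancel]
  · intro q _
    rfl

theorem finalS (hW : FinalW) : FinalS := by
  classical
  intro δ hδ
  obtain ⟨τ, hτ, P, hP⟩ := hW δ hδ
  refine ⟨τ, hτ, P, ?_⟩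
  intro p _ hp C E hC hE D D' hD A B hA hB α β χ hχ
  have hchA : ∀ a : ZMod p, ∃ t, a ∈ A → t ∈ D ∧ a - t ∈ C := by
    intro a
    by_cases ha : a ∈ A
    · obtain ⟨t, ht, c, hc, rfl⟩ := mem_add.mp (hA ha)
      exact ⟨t, fun _ => ⟨ht, by rwa [add_sub_cancel_left]⟩⟩
    · exact ⟨0, fun h => absurd h ha⟩
  have hchB : ∀ b : ZMod p, ∃ t, b ∈ B → t ∈ D' ∧ b - t ∈ E := by
    intro a
    by_cases ha : a ∈ B
    · obtain ⟨t, ht, c, hc, rfl⟩ := mem_add.mp (hB ha)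
      exact ⟨t, fun _ => ⟨ht, by rwa [add_sub_cancel_left]⟩⟩
    · exact ⟨0, fun h => absurd h ha⟩
  choose ca hca using hchA
  choose cb hcb using hchB
  set α' : ZMod p → ZMod p → ℂ := fun t c => if t + c ∈ A ∧ ca (t + c) = t then α (t + c) else 0
    with hα'
  set β' : ZMod p → ZMod p → ℂ := fun t c => if t + c ∈ B ∧ cb (t + c) = t then β (t + c) else 0
    with hβ'
  have h := hP p hp C E hC hE D D' hD α' β' χ hχ
  have e1 : ∑ t ∈ D, ∑ c ∈ C, ‖α' t c‖ ^ 2 = ∑ a ∈ A, ‖α a‖ ^ 2 := by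
    rw [← sum_repr D C A ca (fun a ha => (hca a ha).1) (fun a ha => (hca a ha).2)
      (fun a => ‖α a‖ ^ 2)]
    refine sum_congr rfl fun t _ => sum_congr rfl fun c _ => ?_
    simp only [hα']
    split_ifs <;> simp
  have e2 : ∑ s ∈ D', ∑ e ∈ E, ‖β' s e‖ ^ 2 = ∑ b ∈ B, ‖β b‖ ^ 2 := by
    rw [← sum_repr D' E B cb (fun a ha => (hcb a ha).1) (fun a ha => (hcb a ha).2)
      (fun a => ‖β a‖ ^ 2)]
    refine sum_congr rfl fun t _ => sum_congr rfl fun c _ => ?_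
    simp only [hβ']
    split_ifs <;> simp
  have e3 : ∑ t ∈ D, ∑ c ∈ C, ∑ s ∈ D', ∑ e ∈ E, α' t c * β' s e * χ (t + c - (s + e)) =
      ∑ a ∈ A, ∑ b ∈ B, α a * β b * χ (a - b) := by
    have e4 : ∀ t c : ZMod p, ∑ s ∈ D', ∑ e ∈ E, α' t c * β' s e * χ (t + c - (s + e)) =
        ∑ b ∈ B, α' t c * β b * χ (t + c - b) := by
      intro t c
      rw [← sum_repr D' E B cb (fun a ha => (hcb a ha).1) (fun a ha => (hcb a ha).2)
        (fun b => α' t c * β b * χ (t + c - b))]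
      refine sum_congr rfl fun s _ => sum_congr rfl fun e _ => ?_
      simp only [hβ']
      split_ifs <;> simp
    simp only [e4]
    rw [← sum_repr D C A ca (fun a ha => (hca a ha).1) (fun a ha => (hca a ha).2)
      (fun a => ∑ b ∈ B, α a * β b * χ (a - b))]
    refine sum_congr rfl fun t _ => sum_congr rfl fun c _ => ?_
    simp only [hα']
    split_ifs <;> simp
  rw [e1, e2, e3] at h
  exact h

end MPcb27.TS
end

section
/-!
# MP_cb27ba_nt, project TS: module FINW (parameters)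

`FinalW` from the modules MM, OPN, TR3, HOE.
-/
set_option autoImplicit false

namespace MPcb27.TS

open Finset
open scoped Pointwise

namespace Finw

/-- the power mean step for the off-diagonal Frobenius norm -/
theorem pow_double_sum {ι : Type} [DecidableEq ι] (C : Finset ι) (F : ι → ι → ℝ) (n : ℕ)
    (hF : ∀ c c', 0 ≤ F c c') :
    (∑ c ∈ C, ∑ c' ∈ C.erase c, F c c') ^ (n + 1) ≤
      ((#C : ℝ) ^ 2) ^ n * ∑ c ∈ C, ∑ c' ∈ C.erase c, F c c' ^ (n + 1) := by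
  classical
  set T : Finset (Σ _ : ι, ι) := C.sigma fun c => C.erase c with hT
  have h1 : ∑ c ∈ C, ∑ c' ∈ C.erase c, F c c' = ∑ q ∈ T, F q.1 q.2 := by
    rw [hT, sum_sigma]
  have h2 : ∑ c ∈ C, ∑ c' ∈ C.erase c, F c c' ^ (n + 1) = ∑ q ∈ T, F q.1 q.2 ^ (n + 1) := by
    rw [hT, sum_sigma]
  have hcard : (#T : ℝ) ≤ (#C : ℝ) ^ 2 := by
    have : #T ≤ #C * #C := by
      rw [hT, card_sigma]
      calc ∑ c ∈ C, #(C.erase c) ≤ ∑ _c ∈ C, #C := sum_le_sum fun c _ => card_le_card (erase_subset _ _)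
        _ = #C * #C := by rw [sum_const, smul_eq_mul]
    calc (#T : ℝ) ≤ ((#C * #C : ℕ) : ℝ) := by exact_mod_cast this
      _ = (#C : ℝ) ^ 2 := by push_cast; ring
  rw [h1, h2]
  have hmean := pow_sum_le_card_mul_sum_pow (s := T) (f := fun q => F q.1 q.2)
    (fun q _ => hF q.1 q.2) n
  calc (∑ q ∈ T, F q.1 q.2) ^ (n + 1) ≤ (#T : ℝ) ^ n * (∑ q ∈ T, F q.1 q.2 ^ (n + 1)) := hmean
    _ ≤ ((#C : ℝ) ^ 2) ^ n * (∑ q ∈ T, F q.1 q.2 ^ (n + 1)) := by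
        refine mul_le_mul_of_nonneg_right (pow_le_pow_left₀ (by positivity) hcard n) ?_
        exact sum_nonneg fun q _ => pow_nonneg (hF _ _) _

/-- `∑_u K(u)^(2r)` from the moments -/
theorem moment_K (p : ℕ) [Fact p.Prime] (C E : Finset (ZMod p)) (χ : MulChar (ZMod p) ℂ) (r : ℕ)
    (hr : 1 ≤ r) (M : ℝ) (hM0 : 0 ≤ M)
    (hM : ∀ h : ZMod p, h ≠ 0 →
      ∑ u : ZMod p, ‖∑ e ∈ E, χ (u - e) * (starRingEnd ℂ) (χ (u - h - e))‖ ^ (2 * (2 * r)) ≤ M) :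
    ∑ u : ZMod p, (∑ c ∈ C, ∑ c' ∈ C.erase c,
        ‖∑ e ∈ E, χ (u + (c - e)) * (starRingEnd ℂ) (χ (u + (c' - e)))‖ ^ 2) ^ (2 * r) ≤
      (#C : ℝ) ^ (4 * r) * M := by
  classical
  have hshift : ∀ c c' : ZMod p, c' ≠ c →
      ∑ u : ZMod p, (‖∑ e ∈ E, χ (u + (c - e)) * (starRingEnd ℂ) (χ (u + (c' - e)))‖ ^ 2) ^ (2 * r)
        ≤ M := by
    intro c c' hcc
    have h0 : c - c' ≠ 0 := sub_ne_zero.2 (Ne.symm hcc)
    refine le_trans (le_of_eq ?_) (hM (c - c') h0)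
    refine Fintype.sum_equiv (Equiv.addRight c) _ _ fun u => ?_
    have hin : ∑ e ∈ E, χ (u + (c - e)) * (starRingEnd ℂ) (χ (u + (c' - e))) =
        ∑ e ∈ E, χ (u + c - e) * (starRingEnd ℂ) (χ (u + c - (c - c') - e)) := by
      refine sum_congr rfl fun e _ => ?_
      have a1 : u + (c - e) = u + c - e := by ring
      have a2 : u + (c' - e) = u + c - (c - c') - e := by ring
      rw [a1, a2]
    rw [hin, ← pow_mul]
    rfl
  have hcount : ∑ c ∈ C, ∑ _c' ∈ C.erase c, M ≤ (#C : ℝ) ^ 2 * M := by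
    calc ∑ c ∈ C, ∑ _c' ∈ C.erase c, M ≤ ∑ _c ∈ C, (#C : ℝ) * M := by
          refine sum_le_sum fun c _ => ?_
          rw [sum_const, nsmul_eq_mul]
          refine mul_le_mul_of_nonneg_right ?_ hM0
          exact_mod_cast card_le_card (erase_subset c C)
      _ = (#C : ℝ) ^ 2 * M := by rw [sum_const, nsmul_eq_mul]; ring
  obtain ⟨n, hn⟩ : ∃ n, 2 * r = n + 1 := ⟨2 * r - 1, by omega⟩
  calc ∑ u : ZMod p, (∑ c ∈ C, ∑ c' ∈ C.erase c,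
        ‖∑ e ∈ E, χ (u + (c - e)) * (starRingEnd ℂ) (χ (u + (c' - e)))‖ ^ 2) ^ (2 * r)
      ≤ ∑ u : ZMod p, ((#C : ℝ) ^ 2) ^ n * ∑ c ∈ C, ∑ c' ∈ C.erase c,
        (‖∑ e ∈ E, χ (u + (c - e)) * (starRingEnd ℂ) (χ (u + (c' - e)))‖ ^ 2) ^ (2 * r) := by
        refine sum_le_sum fun u _ => ?_
        rw [hn]
        exact pow_double_sum C _ n fun c c' => by positivity
    _ = ((#C : ℝ) ^ 2) ^ n * ∑ c ∈ C, ∑ c' ∈ C.erase c, ∑ u : ZMod p,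
        (‖∑ e ∈ E, χ (u + (c - e)) * (starRingEnd ℂ) (χ (u + (c' - e)))‖ ^ 2) ^ (2 * r) := by
        rw [← mul_sum, sum_comm]
        congr 1
        refine sum_congr rfl fun c _ => ?_
        rw [sum_comm]
    _ ≤ ((#C : ℝ) ^ 2) ^ n * ∑ c ∈ C, ∑ _c' ∈ C.erase c, M := by
        refine mul_le_mul_of_nonneg_left ?_ (by positivity)
        refine sum_le_sum fun c _ => sum_le_sum fun c' hc' => hshift c c' (mem_erase.1 hc').1
    _ ≤ ((#C : ℝ) ^ 2) ^ n * ((#C : ℝ) ^ 2 * M) :=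
        mul_le_mul_of_nonneg_left hcount (by positivity)
    _ = (#C : ℝ) ^ (4 * r) * M := by
        rw [← mul_assoc, ← pow_succ, ← hn, ← pow_mul]
        congr 2
        ring

/-- real arithmetic: from `X ^ (4r) ≤ ...` to `X ≤ ...` -/
theorem arith_X {p S m m' X Cr δ : ℝ} {r : ℕ} (hr : 1 ≤ r) (hp : 1 ≤ p) (hδ : 0 < δ)
    (hS : 0 ≤ S) (hm : 0 ≤ m) (hm' : p ^ δ ≤ m') (hCr : 0 ≤ Cr)
    (hrδ : 1 ≤ 4 * r * δ)
    (hbig : 2 ^ (4 * r) * (2 * Cr) ≤ p ^ (δ / 2))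
    (h : X ^ (4 * r) ≤ S ^ (4 * r - 2) * (p ^ (-(1 / 2) - δ) * S ^ 2 *
      (m ^ (4 * r) * (Cr * (m' ^ (2 * r) * p + m' ^ (2 * (2 * r)) * Real.sqrt p))))) :
    X ≤ 1 / 2 * p ^ (-(2 * (δ / (16 * r)))) * (S * (m * m')) := by
  have hp0 : 0 < p := by linarith
  have hm'0 : 0 < m' := lt_of_lt_of_le (Real.rpow_pos_of_pos hp0 _) hm'
  have hr0 : (0 : ℝ) < r := by exact_mod_cast (by omega : 0 < r)
  have hsq : Real.sqrt p = p ^ (1 / 2 : ℝ) := Real.sqrt_eq_rpow p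
  have h1 : p ≤ m' ^ (2 * r) * Real.sqrt p := by
    have h2 : p ^ (1 / 2 : ℝ) ≤ m' ^ (2 * r) := by
      calc p ^ (1 / 2 : ℝ) ≤ p ^ (δ * ((2 * r : ℕ) : ℝ)) := by
            refine Real.rpow_le_rpow_of_exponent_le hp ?_
            push_cast
            nlinarith
        _ = (p ^ δ) ^ (2 * r) := by rw [Real.rpow_mul hp0.le, Real.rpow_natCast]
        _ ≤ m' ^ (2 * r) := pow_le_pow_left₀ (Real.rpow_nonneg hp0.le _) hm' _
    calc p = p ^ (1 / 2 : ℝ) * Real.sqrt p := by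
          rw [hsq, ← Real.rpow_add hp0]; norm_num
      _ ≤ m' ^ (2 * r) * Real.sqrt p := mul_le_mul_of_nonneg_right h2 (Real.sqrt_nonneg _)
  have h3 : m' ^ (2 * r) * p + m' ^ (2 * (2 * r)) * Real.sqrt p ≤
      2 * (m' ^ (4 * r) * Real.sqrt p) := by
    have : m' ^ (2 * r) * p ≤ m' ^ (2 * r) * (m' ^ (2 * r) * Real.sqrt p) :=
      mul_le_mul_of_nonneg_left h1 (by positivity)
    have e1 : m' ^ (2 * r) * (m' ^ (2 * r) * Real.sqrt p) = m' ^ (4 * r) * Real.sqrt p := by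
      rw [← mul_assoc, ← pow_add]; congr 2; ring
    have e2 : m' ^ (2 * (2 * r)) * Real.sqrt p = m' ^ (4 * r) * Real.sqrt p := by
      congr 2; ring
    rw [e2]; linarith
  have h4 : X ^ (4 * r) ≤ S ^ (4 * r) * (m ^ (4 * r) * m' ^ (4 * r)) * (2 * Cr * p ^ (-δ)) := by
    calc X ^ (4 * r) ≤ S ^ (4 * r - 2) * (p ^ (-(1 / 2) - δ) * S ^ 2 *
      (m ^ (4 * r) * (Cr * (m' ^ (2 * r) * p + m' ^ (2 * (2 * r)) * Real.sqrt p)))) := h
      _ ≤ S ^ (4 * r - 2) * (p ^ (-(1 / 2) - δ) * S ^ 2 *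
      (m ^ (4 * r) * (Cr * (2 * (m' ^ (4 * r) * Real.sqrt p))))) := by
          have hq : 0 ≤ p ^ (-(1 / 2) - δ) := Real.rpow_nonneg hp0.le _
          gcongr
      _ = (S ^ (4 * r - 2) * S ^ 2) * (m ^ (4 * r) * m' ^ (4 * r)) *
          (2 * Cr * (p ^ (-(1 / 2) - δ) * Real.sqrt p)) := by ring
      _ = S ^ (4 * r) * (m ^ (4 * r) * m' ^ (4 * r)) * (2 * Cr * p ^ (-δ)) := by
          have e1 : S ^ (4 * r - 2) * S ^ 2 = S ^ (4 * r) := by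
            rw [← pow_add]; congr 1; omega
          have e2 : p ^ (-(1 / 2) - δ) * Real.sqrt p = p ^ (-δ) := by
            rw [hsq, ← Real.rpow_add hp0]; congr 1; ring
          rw [e1, e2]
  have h5 : 2 * Cr * p ^ (-δ) ≤ (1 / 2 * p ^ (-(2 * (δ / (16 * r))))) ^ (4 * r) := by
    have e1 : (1 / 2 * p ^ (-(2 * (δ / (16 * r))))) ^ (4 * r) = (1 / 2) ^ (4 * r) * p ^ (-(δ / 2)) := by
      rw [mul_pow, ← Real.rpow_natCast (p ^ (-(2 * (δ / (16 * r))))), ← Real.rpow_mul hp0.le]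
      congr 2
      push_cast
      field_simp
      ring
    rw [e1]
    have e2 : p ^ (-(δ / 2)) = p ^ (δ / 2) * p ^ (-δ) := by
      rw [← Real.rpow_add hp0]; congr 1; ring
    rw [e2]
    have h6 : 2 * Cr ≤ (1 / 2) ^ (4 * r) * p ^ (δ / 2) := by
      have h2pos : (0 : ℝ) < 2 ^ (4 * r) := by positivity
      have : (1 / 2 : ℝ) ^ (4 * r) * p ^ (δ / 2) ≥ (1 / 2 : ℝ) ^ (4 * r) * (2 ^ (4 * r) * (2 * Cr)) :=
        mul_le_mul_of_nonneg_left hbig (by positivity)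
      have e3 : (1 / 2 : ℝ) ^ (4 * r) * (2 ^ (4 * r) * (2 * Cr)) = 2 * Cr := by
        rw [← mul_assoc, ← mul_pow]; norm_num
      linarith
    calc 2 * Cr * p ^ (-δ) ≤ ((1 / 2) ^ (4 * r) * p ^ (δ / 2)) * p ^ (-δ) :=
          mul_le_mul_of_nonneg_right h6 (Real.rpow_nonneg hp0.le _)
      _ = (1 / 2) ^ (4 * r) * (p ^ (δ / 2) * p ^ (-δ)) := by ring
  have h7 : X ^ (4 * r) ≤ (1 / 2 * p ^ (-(2 * (δ / (16 * r)))) * (S * (m * m'))) ^ (4 * r) := by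
    calc X ^ (4 * r) ≤ S ^ (4 * r) * (m ^ (4 * r) * m' ^ (4 * r)) * (2 * Cr * p ^ (-δ)) := h4
      _ ≤ S ^ (4 * r) * (m ^ (4 * r) * m' ^ (4 * r)) *
          (1 / 2 * p ^ (-(2 * (δ / (16 * r))))) ^ (4 * r) :=
          mul_le_mul_of_nonneg_left h5 (by positivity)
      _ = _ := by rw [mul_pow, mul_pow, mul_pow S, mul_pow m]; ring
  refine le_of_pow_le_pow_left₀ (by omega : 4 * r ≠ 0) ?_ h7
  have := Real.rpow_nonneg hp0.le (-(2 * (δ / (16 * r))))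
  positivity

end Finw

/-- FINW -/
theorem finW (h1 : SpecMM) (h2 : SpecOPN) (h3 : SpecTR3) (h4 : SpecHOE) : FinalW := by
  intro δ hδ
  obtain ⟨r, hr1, hrδ⟩ : ∃ r : ℕ, 1 ≤ r ∧ 1 ≤ 4 * (r : ℝ) * δ := by
    obtain ⟨r, hr⟩ := exists_nat_gt (1 / (4 * δ))
    refine ⟨r + 1, by omega, ?_⟩
    have h5 : 1 < (r : ℝ) * (4 * δ) := by
      rwa [div_lt_iff₀ (by positivity)] at hr
    push_cast
    nlinarith
  obtain ⟨Cr, hCr0, hCr⟩ := h1 (2 * r) (by omega)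
  have hr0 : (1 : ℝ) ≤ r := by exact_mod_cast hr1
  have hτ : 0 < δ / (16 * r) := by positivity
  have hτ2 : 0 < δ - 2 * (δ / (16 * r)) := by
    have : 2 * (δ / (16 * r)) ≤ δ / 8 := by
      rw [← mul_div_assoc, div_le_div_iff₀ (by positivity) (by norm_num)]
      nlinarith
    linarith
  refine ⟨δ / (16 * r), hτ, ?_⟩
  obtain ⟨P, hP⟩ : ∃ P : ℕ, ∀ p : ℕ, P ≤ p → 2 * (2 * r) < p ∧
      2 ^ (4 * r) * (2 * Cr) ≤ (p : ℝ) ^ (δ / 2) ∧
      2 ≤ (p : ℝ) ^ (δ - 2 * (δ / (16 * r))) := by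
    have e1 : ∀ᶠ p : ℕ in Filter.atTop, 2 * (2 * r) < p := Filter.eventually_gt_atTop _
    have e2 : ∀ᶠ p : ℕ in Filter.atTop, 2 ^ (4 * r) * (2 * Cr) ≤ (p : ℝ) ^ (δ / 2) :=
      ((tendsto_rpow_atTop (by positivity : 0 < δ / 2)).comp
        tendsto_natCast_atTop_atTop).eventually_ge_atTop _
    have e3 : ∀ᶠ p : ℕ in Filter.atTop, 2 ≤ (p : ℝ) ^ (δ - 2 * (δ / (16 * r))) :=
      ((tendsto_rpow_atTop hτ2).comp tendsto_natCast_atTop_atTop).eventually_ge_atTop _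
    exact Filter.eventually_atTop.1 (e1.and (e2.and e3))
  refine ⟨P, ?_⟩
  intro p _ hPp C E hC hE D D' hDD α β χ hχ
  obtain ⟨hp1, hp2, hp3⟩ := hP p hPp
  have hp : (1 : ℝ) ≤ (p : ℝ) := by exact_mod_cast (Fact.out : p.Prime).one_lt.le
  have hp0 : (0 : ℝ) < (p : ℝ) := by linarith
  have hcC : (0 : ℝ) ≤ #C := Nat.cast_nonneg _
  have hcE : (0 : ℝ) ≤ #E := Nat.cast_nonneg _
  have hcD : (0 : ℝ) ≤ #D := Nat.cast_nonneg _
  have hcD' : (0 : ℝ) ≤ #D' := Nat.cast_nonneg _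
  set K : ZMod p → ℝ := fun u => ∑ c ∈ C, ∑ c' ∈ C.erase c,
    ‖∑ e ∈ E, χ (u + (c - e)) * (starRingEnd ℂ) (χ (u + (c' - e)))‖ ^ 2 with hK
  have hK0 : ∀ u, 0 ≤ K u := fun u =>
    sum_nonneg fun c _ => sum_nonneg fun c' _ => sq_nonneg _
  set N : ZMod p → ℝ := fun u => Real.sqrt ((#E : ℝ) + Real.sqrt (K u)) with hN
  have hN0 : ∀ u, 0 ≤ N u := fun u => Real.sqrt_nonneg _
  have hNK : ∀ u, 0 ≤ (#E : ℝ) + Real.sqrt (K u) := fun u =>
    add_nonneg hcE (Real.sqrt_nonneg _)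
  have hNsq : ∀ u, N u ^ 2 = (#E : ℝ) + Real.sqrt (K u) := fun u => Real.sq_sqrt (hNK u)
  have hχ1 : ∀ a : ZMod p, ‖χ a‖ ≤ 1 := by
    intro a
    by_cases ha : IsUnit a
    · obtain ⟨v, hv⟩ := ha
      have hpow : χ a ^ (p - 1) = 1 := by
        rw [← map_pow]
        have hne : a ≠ 0 := by
          rw [← hv]
          exact v.ne_zero
        rw [ZMod.pow_card_sub_one_eq_one hne, map_one]
      have hp1' : p - 1 ≠ 0 := by
        have := (Fact.out : p.Prime).two_le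
        omega
      exact (Complex.norm_eq_one_of_pow_eq_one hpow hp1').le
    · rw [MulChar.map_nonunit χ ha, norm_zero]
      exact zero_le_one
  have hOP : ∀ (u : ZMod p) (x y : ZMod p → ℂ),
      ‖∑ c ∈ C, ∑ e ∈ E, x c * y e * χ (u + (c - e))‖ ≤
      N u * (Real.sqrt (∑ c ∈ C, ‖x c‖ ^ 2) * Real.sqrt (∑ e ∈ E, ‖y e‖ ^ 2)) := by
    intro u x y
    have h5 := h2 p C E (fun c e => χ (u + (c - e))) (fun c _ e _ => hχ1 _) x y
    have h6 : N u * (Real.sqrt (∑ c ∈ C, ‖x c‖ ^ 2) * Real.sqrt (∑ e ∈ E, ‖y e‖ ^ 2)) =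
        Real.sqrt (((#E : ℝ) + Real.sqrt (K u)) *
          ((∑ c ∈ C, ‖x c‖ ^ 2) * ∑ e ∈ E, ‖y e‖ ^ 2)) := by
      rw [Real.sqrt_mul (hNK u), Real.sqrt_mul (sum_nonneg fun _ _ => sq_nonneg _)]
    rw [h6]
    exact Real.le_sqrt_of_sq_le h5
  have hTR := h3 p C E D D' α β (fun a => χ a) N hN0 hOP
  set A2 : ℝ := ∑ t ∈ D, ∑ c ∈ C, ‖α t c‖ ^ 2 with hA2
  set B2 : ℝ := ∑ s ∈ D', ∑ e ∈ E, ‖β s e‖ ^ 2 with hB2
  have hA20 : 0 ≤ A2 := sum_nonneg fun t _ => sum_nonneg fun c _ => sq_nonneg _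
  have hB20 : 0 ≤ B2 := sum_nonneg fun t _ => sum_nonneg fun c _ => sq_nonneg _
  set X : ℝ := ∑ q ∈ D ×ˢ D', Real.sqrt (K (q.1 - q.2)) with hX
  have hsumN : ∑ q ∈ D ×ˢ D', N (q.1 - q.2) ^ 2 = (#D : ℝ) * #D' * #E + X := by
    calc ∑ q ∈ D ×ˢ D', N (q.1 - q.2) ^ 2
        = ∑ q ∈ D ×ˢ D', ((#E : ℝ) + Real.sqrt (K (q.1 - q.2))) :=
          sum_congr rfl fun q _ => hNsq _
      _ = _ := by
          rw [sum_add_distrib, sum_const, card_product, nsmul_eq_mul]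
          push_cast
          rfl
  set M : ℝ := Cr * ((#E : ℝ) ^ (2 * r) * p + (#E : ℝ) ^ (2 * (2 * r)) * Real.sqrt p) with hM
  have hM0 : 0 ≤ M := mul_nonneg hCr0 (add_nonneg (mul_nonneg (pow_nonneg hcE _) hp0.le)
    (mul_nonneg (pow_nonneg hcE _) (Real.sqrt_nonneg _)))
  have hmom : ∑ u : ZMod p, K u ^ (2 * r) ≤ (#C : ℝ) ^ (4 * r) * M :=
    Finw.moment_K p C E χ r hr1 M hM0 fun h hh => hCr p χ hχ hp1 E h hh
  have hHOE := h4 p D D' K r _ hr1 hK0 hmom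
  have hDD2 : ((D.addEnergy D' : ℕ) : ℝ) ≤ (p : ℝ) ^ (-(1 / 2) - δ) * ((#D : ℝ) * #D') ^ 2 := by
    refine hDD.trans (le_of_eq ?_)
    rw [mul_pow, mul_assoc]
  have hV0 : 0 ≤ (#C : ℝ) ^ (4 * r) * M := mul_nonneg (pow_nonneg (Nat.cast_nonneg _) _) hM0
  have hS0 : 0 ≤ (#D : ℝ) * #D' := mul_nonneg (Nat.cast_nonneg _) (Nat.cast_nonneg _)
  have hX2 : X ^ (4 * r) ≤ ((#D : ℝ) * #D') ^ (4 * r - 2) *
      ((p : ℝ) ^ (-(1 / 2) - δ) * ((#D : ℝ) * #D') ^ 2 * ((#C : ℝ) ^ (4 * r) * M)) :=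
    hHOE.trans (mul_le_mul_of_nonneg_left (mul_le_mul_of_nonneg_right hDD2 hV0)
      (pow_nonneg hS0 _))
  rw [hM] at hX2
  have hXle := Finw.arith_X (S := (#D : ℝ) * #D') (m := (#C : ℝ)) (m' := (#E : ℝ)) (X := X)
    (Cr := Cr) hr1 hp hδ hS0 (Nat.cast_nonneg _) hE hCr0 hrδ hp2 hX2
  clear_value K X M
  set w : ℝ := (p : ℝ) ^ (-(2 * (δ / (16 * r)))) with hw
  have hw0 : 0 < w := Real.rpow_pos_of_pos hp0 _
  have hdiag : (#D : ℝ) * #D' * #E ≤ 1 / 2 * w * ((#D : ℝ) * #D' * ((#C : ℝ) * #E)) := by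
    have h7 : 1 ≤ 1 / 2 * w * (#C : ℝ) := by
      have h8 : (p : ℝ) ^ (δ - 2 * (δ / (16 * r))) = w * (p : ℝ) ^ δ := by
        rw [hw, ← Real.rpow_add hp0]
        congr 1
        ring
      rw [h8] at hp3
      have h9 : w * (p : ℝ) ^ δ ≤ w * (#C : ℝ) := mul_le_mul_of_nonneg_left hC hw0.le
      linarith
    calc (#D : ℝ) * #D' * #E = (#D : ℝ) * #D' * #E * 1 := by ring
      _ ≤ (#D : ℝ) * #D' * #E * (1 / 2 * w * (#C : ℝ)) :=
          mul_le_mul_of_nonneg_left h7 (mul_nonneg hS0 hcE)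
      _ = _ := by ring
  have hN2 : ∑ q ∈ D ×ˢ D', N (q.1 - q.2) ^ 2 ≤ w * ((#D : ℝ) * #C * (#D' * #E)) := by
    rw [hsumN]
    calc (#D : ℝ) * #D' * #E + X ≤ 1 / 2 * w * ((#D : ℝ) * #D' * ((#C : ℝ) * #E)) +
          1 / 2 * w * ((#D : ℝ) * #D' * ((#C : ℝ) * #E)) := add_le_add hdiag hXle
      _ = _ := by ring
  have hDC0 : 0 ≤ (#D : ℝ) * #C * (#D' * #E) :=
    mul_nonneg (mul_nonneg hcD hcC) (mul_nonneg hcD' hcE)
  have hw2 : ((p : ℝ) ^ (-(δ / (16 * r)))) ^ 2 = w := by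
    rw [hw, ← Real.rpow_natCast ((p : ℝ) ^ (-(δ / (16 * r)))), ← Real.rpow_mul hp0.le]
    congr 1
    push_cast
    ring
  have hfin : ‖∑ t ∈ D, ∑ c ∈ C, ∑ s ∈ D', ∑ e ∈ E, α t c * β s e * χ (t + c - (s + e))‖ ^ 2 ≤
      ((p : ℝ) ^ (-(δ / (16 * r))) * Real.sqrt ((#D : ℝ) * #C * (#D' * #E)) *
        (Real.sqrt A2 * Real.sqrt B2)) ^ 2 := by
    calc _ ≤ (∑ q ∈ D ×ˢ D', N (q.1 - q.2) ^ 2) * (A2 * B2) := hTR
      _ ≤ w * ((#D : ℝ) * #C * (#D' * #E)) * (A2 * B2) :=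
          mul_le_mul_of_nonneg_right hN2 (mul_nonneg hA20 hB20)
      _ = _ := by
          rw [mul_pow, mul_pow, mul_pow, Real.sq_sqrt hDC0, Real.sq_sqrt hA20,
            Real.sq_sqrt hB20, hw2]
  exact le_of_pow_le_pow_left₀ two_ne_zero (mul_nonneg (mul_nonneg (Real.rpow_nonneg hp0.le _)
    (Real.sqrt_nonneg _)) (mul_nonneg (Real.sqrt_nonneg _) (Real.sqrt_nonneg _))) hfin

end MPcb27.TS
end

section
/-!
# MP_cb27ba_nt, project TS: module HOE (Hoelder and the additive energy)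
-/
set_option autoImplicit false

namespace MPcb27.TS

open Finset
open scoped Pointwise

theorem hoe_energy (p : ℕ) [Fact p.Prime] (D D' : Finset (ZMod p)) :
    ∑ u : ZMod p, (#((D ×ˢ D').filter fun q => q.1 - q.2 = u) : ℝ) ^ 2 = (D.addEnergy D' : ℝ) := by
  have h1 : ∑ u : ZMod p, #((D ×ˢ D').filter fun q => q.1 - q.2 = u) ^ 2 =
      #(((D ×ˢ D') ×ˢ (D ×ˢ D')).filter fun q => q.1.1 - q.1.2 = q.2.1 - q.2.2) := by
    rw [card_eq_sum_card_fiberwise (f := fun q : (ZMod p × ZMod p) × (ZMod p × ZMod p) =>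
      q.1.1 - q.1.2) (t := univ) (fun _ _ => mem_coe.2 (mem_univ _))]
    refine sum_congr rfl fun u _ => ?_
    rw [sq, ← card_product]
    congr 1
    ext ⟨q, q'⟩
    simp only [mem_filter, mem_product]
    constructor
    · rintro ⟨⟨h1, h2⟩, h3, h4⟩
      exact ⟨⟨⟨h1, h3⟩, h2.trans h4.symm⟩, h2⟩
    · rintro ⟨⟨⟨h1, h3⟩, h5⟩, h2⟩
      exact ⟨⟨h1, h2⟩, h3, h5.symm.trans h2⟩
  have h2 : #(((D ×ˢ D') ×ˢ (D ×ˢ D')).filter fun q => q.1.1 - q.1.2 = q.2.1 - q.2.2) =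
      D.addEnergy D' := by
    unfold addEnergy
    refine card_bij' (fun q _ => ((q.1.1, q.2.1), (q.2.2, q.1.2)))
      (fun q _ => ((q.1.1, q.2.2), (q.1.2, q.2.1))) ?_ ?_ ?_ ?_
    · rintro ⟨⟨a, b⟩, a', b'⟩ hq
      simp only [mem_filter, mem_product] at hq ⊢
      obtain ⟨⟨⟨ha, hb⟩, ha', hb'⟩, h⟩ := hq
      refine ⟨⟨⟨ha, ha'⟩, hb', hb⟩, ?_⟩
      linear_combination h
    · rintro ⟨⟨a, a'⟩, b', b⟩ hq
      simp only [mem_filter, mem_product] at hq ⊢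
      obtain ⟨⟨⟨ha, ha'⟩, hb', hb⟩, h⟩ := hq
      refine ⟨⟨⟨ha, hb⟩, ha', hb'⟩, ?_⟩
      linear_combination h
    · rintro ⟨⟨a, b⟩, a', b'⟩ hq
      rfl
    · rintro ⟨⟨a, a'⟩, b', b⟩ hq
      rfl
  rw [← h2, ← h1]
  push_cast
  rfl

theorem specHOE : SpecHOE := by
  intro p _ D D' K r V hr hK hV
  set S := D ×ˢ D' with hS
  set N : ℝ := (#D : ℝ) * #D' with hN
  have hN0 : 0 ≤ N := by positivity
  have hcard : (#S : ℝ) = N := by rw [hS, card_product, hN]; push_cast; rfl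
  set T : ℝ := ∑ q ∈ S, Real.sqrt (K (q.1 - q.2)) with hT
  have hT0 : 0 ≤ T := sum_nonneg fun q _ => Real.sqrt_nonneg _
  obtain ⟨n, rfl⟩ : ∃ n, r = n + 1 := ⟨r - 1, by omega⟩
  set W : ℝ := ∑ q ∈ S, K (q.1 - q.2) ^ (n + 1) with hW
  have hW0 : 0 ≤ W := sum_nonneg fun q _ => pow_nonneg (hK _) _
  -- power mean
  have h1 : T ^ (2 * (n + 1)) ≤ N ^ (2 * n + 1) * W := by
    have h := pow_sum_div_card_le_sum_pow (s := S) (f := fun q => Real.sqrt (K (q.1 - q.2)))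
      (fun q _ => Real.sqrt_nonneg _) (2 * n + 1)
    rw [hcard] at h
    have hs : ∀ q ∈ S, Real.sqrt (K (q.1 - q.2)) ^ (2 * n + 1 + 1) = K (q.1 - q.2) ^ (n + 1) := by
      intro q _
      rw [show 2 * n + 1 + 1 = 2 * (n + 1) by ring, pow_mul, Real.sq_sqrt (hK _)]
    rw [sum_congr rfl hs, ← hT, ← hW] at h
    rw [show 2 * (n + 1) = 2 * n + 1 + 1 by ring]
    rcases hN0.eq_or_lt with h0 | h0
    · -- `S` is empty
      have hSe : S = ∅ := by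
        rw [← card_eq_zero]
        have : (#S : ℝ) = 0 := by rw [hcard, ← h0]
        exact_mod_cast this
      have hT' : T = 0 := by rw [hT, hSe, sum_empty]
      rw [hT']
      have : (0 : ℝ) ^ (2 * n + 1 + 1) = 0 := by simp
      rw [this]
      positivity
    · rwa [div_le_iff₀' (by positivity)] at h
  -- Cauchy-Schwarz
  have h2 : W ^ 2 ≤ D.addEnergy D' * V := by
    have e : W = ∑ u : ZMod p, (#(S.filter fun q => q.1 - q.2 = u) : ℝ) * K u ^ (n + 1) := by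
      rw [hW, ← sum_fiberwise S (fun q : ZMod p × ZMod p => q.1 - q.2)]
      refine sum_congr rfl fun u _ => ?_
      rw [sum_congr rfl (g := fun _ => K u ^ (n + 1)), sum_const, nsmul_eq_mul]
      intro q hq
      rw [(mem_filter.1 hq).2]
    rw [e]
    refine (sum_mul_sq_le_sq_mul_sq _ _ _).trans ?_
    rw [hoe_energy]
    refine mul_le_mul_of_nonneg_left ?_ (by positivity)
    refine le_trans (le_of_eq ?_) hV
    refine sum_congr rfl fun u _ => ?_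
    rw [← pow_mul]
    congr 1
    ring
  calc T ^ (4 * (n + 1)) = (T ^ (2 * (n + 1))) ^ 2 := by
        rw [← pow_mul]
        congr 1
        ring
    _ ≤ (N ^ (2 * n + 1) * W) ^ 2 :=
        pow_le_pow_left₀ (pow_nonneg hT0 _) h1 2
    _ = N ^ (4 * (n + 1) - 2) * W ^ 2 := by
        rw [mul_pow, ← pow_mul]
        congr 2
        omega
    _ ≤ N ^ (4 * (n + 1) - 2) * (D.addEnergy D' * V) :=
        mul_le_mul_of_nonneg_left h2 (by positivity)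

end MPcb27.TS
end

section
/-!
# MP_cb27ba_nt, project TS: module OPN, the norm of a matrix by the Frobenius norm of `K K*`
-/
set_option autoImplicit false

namespace MPcb27.TS

open Finset

/-- module OPN -/
theorem specOPN : SpecOPN := by
  intro p _ C E K hK x y
  set X : ℝ := ∑ i ∈ C, ‖x i‖ ^ 2 with hX
  set Y : ℝ := ∑ j ∈ E, ‖y j‖ ^ 2 with hY
  have hX0 : 0 ≤ X := sum_nonneg fun i _ => sq_nonneg _
  have hY0 : 0 ≤ Y := sum_nonneg fun j _ => sq_nonneg _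
  let g : ZMod p → ZMod p → ℂ := fun i i' => ∑ j ∈ E, K i j * (starRingEnd ℂ) (K i' j)
  set S : ℝ := ∑ i ∈ C, ∑ i' ∈ C.erase i, ‖g i i'‖ ^ 2 with hS
  have hS0 : 0 ≤ S := sum_nonneg fun i _ => sum_nonneg fun j _ => sq_nonneg _
  -- first step
  have h1 : ‖∑ i ∈ C, ∑ j ∈ E, x i * y j * K i j‖ ^ 2 ≤
      Y * ∑ j ∈ E, ‖∑ i ∈ C, x i * K i j‖ ^ 2 := by
    have e : (∑ i ∈ C, ∑ j ∈ E, x i * y j * K i j) = ∑ j ∈ E, y j * ∑ i ∈ C, x i * K i j := by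
      rw [sum_comm]
      refine sum_congr rfl fun j _ => ?_
      rw [mul_sum]
      exact sum_congr rfl fun i _ => by ring
    rw [e]
    calc ‖∑ j ∈ E, y j * ∑ i ∈ C, x i * K i j‖ ^ 2
        ≤ (∑ j ∈ E, ‖y j‖ * ‖∑ i ∈ C, x i * K i j‖) ^ 2 := by
          gcongr
          refine (norm_sum_le _ _).trans (le_of_eq ?_)
          exact sum_congr rfl fun j _ => norm_mul _ _
      _ ≤ Y * ∑ j ∈ E, ‖∑ i ∈ C, x i * K i j‖ ^ 2 := sum_mul_sq_le_sq_mul_sq _ _ _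
  -- expansion
  have h2 : ((∑ j ∈ E, ‖∑ i ∈ C, x i * K i j‖ ^ 2 : ℝ) : ℂ) =
      ∑ i ∈ C, ∑ i' ∈ C, x i * (starRingEnd ℂ) (x i') * g i i' := by
    push_cast
    have : ∀ j, ((‖∑ i ∈ C, x i * K i j‖ : ℝ) : ℂ) ^ 2 =
        ∑ i ∈ C, ∑ i' ∈ C, x i * (starRingEnd ℂ) (x i') *
          (K i j * (starRingEnd ℂ) (K i' j)) := by
      intro j
      rw [← Complex.mul_conj', map_sum, sum_mul_sum]
      refine sum_congr rfl fun i _ => sum_congr rfl fun i' _ => ?_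
      rw [map_mul]; ring
    rw [sum_congr rfl fun j _ => this j, sum_comm]
    refine sum_congr rfl fun i _ => ?_
    rw [sum_comm]
    refine sum_congr rfl fun i' _ => ?_
    rw [mul_sum]
  have h3 : (∑ j ∈ E, ‖∑ i ∈ C, x i * K i j‖ ^ 2 : ℝ) ≤
      ∑ i ∈ C, ∑ i' ∈ C, ‖x i‖ * ‖x i'‖ * ‖g i i'‖ := by
    have a1 : (∑ j ∈ E, ‖∑ i ∈ C, x i * K i j‖ ^ 2 : ℝ) =
        ‖((∑ j ∈ E, ‖∑ i ∈ C, x i * K i j‖ ^ 2 : ℝ) : ℂ)‖ := by
      rw [Complex.norm_real, Real.norm_eq_abs, abs_of_nonneg]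
      exact sum_nonneg fun i _ => sq_nonneg _
    rw [a1, h2]
    refine (norm_sum_le _ _).trans (sum_le_sum fun i _ => (norm_sum_le _ _).trans
      (sum_le_sum fun i' _ => le_of_eq ?_))
    rw [norm_mul, norm_mul, RCLike.norm_conj]
  -- diagonal
  have h4 : ∀ i ∈ C, ‖g i i‖ ≤ #E := by
    intro i hi
    refine (norm_sum_le _ _).trans ?_
    calc ∑ j ∈ E, ‖K i j * (starRingEnd ℂ) (K i j)‖ ≤ ∑ _j ∈ E, (1 : ℝ) := by
          refine sum_le_sum fun j hj => ?_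
          rw [norm_mul, RCLike.norm_conj]
          have := hK i hi j hj
          nlinarith [norm_nonneg (K i j)]
      _ = #E := by simp
  -- off the diagonal
  have h5 : ∑ i ∈ C, ∑ i' ∈ C.erase i, ‖x i‖ * ‖x i'‖ * ‖g i i'‖ ≤ X * Real.sqrt S := by
    have c1 : (∑ i ∈ C, ∑ i' ∈ C.erase i, ‖x i‖ * ‖x i'‖ * ‖g i i'‖) ^ 2 ≤ X ^ 2 * S := by
      rw [sum_sigma', hS, sum_sigma']
      refine (sum_mul_sq_le_sq_mul_sq (C.sigma fun i : ZMod p => C.erase i)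
        (fun q : (_ : ZMod p) × ZMod p => ‖x q.1‖ * ‖x q.2‖)
        (fun q : (_ : ZMod p) × ZMod p => ‖g q.1 q.2‖)).trans ?_
      refine mul_le_mul_of_nonneg_right ?_ (sum_nonneg fun i _ => sq_nonneg _)
      rw [← sum_sigma' C (fun i : ZMod p => C.erase i)
        (fun i i' => (‖x i‖ * ‖x i'‖) ^ 2)]
      calc ∑ i ∈ C, ∑ i' ∈ C.erase i, (‖x i‖ * ‖x i'‖) ^ 2
          ≤ ∑ i ∈ C, ∑ i' ∈ C, (‖x i‖ * ‖x i'‖) ^ 2 :=
            sum_le_sum fun i _ => sum_le_sum_of_subset_of_nonneg (erase_subset _ _)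
              fun _ _ _ => sq_nonneg _
        _ = X ^ 2 := by
            rw [hX, sq (∑ i ∈ C, ‖x i‖ ^ 2), sum_mul_sum]
            exact sum_congr rfl fun i _ => sum_congr rfl fun j _ => by ring
    have c2 : X * Real.sqrt S = Real.sqrt (X ^ 2 * S) := by
      rw [Real.sqrt_mul (sq_nonneg X), Real.sqrt_sq hX0]
    rw [c2]
    refine Real.le_sqrt_of_sq_le ?_
    exact c1
  have h6 : ∑ i ∈ C, ∑ i' ∈ C, ‖x i‖ * ‖x i'‖ * ‖g i i'‖ ≤ (#E + Real.sqrt S) * X := by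
    have d1 : ∀ i ∈ C, ∑ i' ∈ C, ‖x i‖ * ‖x i'‖ * ‖g i i'‖ =
        ‖x i‖ * ‖x i‖ * ‖g i i‖ + ∑ i' ∈ C.erase i, ‖x i‖ * ‖x i'‖ * ‖g i i'‖ :=
      fun i hi => (add_sum_erase _ _ hi).symm
    rw [sum_congr rfl d1, sum_add_distrib]
    have d2 : ∑ i ∈ C, ‖x i‖ * ‖x i‖ * ‖g i i‖ ≤ #E * X := by
      rw [hX, mul_sum]
      refine sum_le_sum fun i hi => ?_
      have := mul_le_mul_of_nonneg_left (h4 i hi) (sq_nonneg ‖x i‖)
      nlinarith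
    nlinarith
  calc ‖∑ i ∈ C, ∑ j ∈ E, x i * y j * K i j‖ ^ 2
      ≤ Y * ∑ j ∈ E, ‖∑ i ∈ C, x i * K i j‖ ^ 2 := h1
    _ ≤ Y * ((#E + Real.sqrt S) * X) := mul_le_mul_of_nonneg_left (h3.trans h6) hY0
    _ = (#E + Real.sqrt S) * (X * Y) := by ring

end MPcb27.TS
end

section
/-!
# MP_cb27ba_nt, project TS: module TR3 (Cauchy-Schwarz over the pairs of translates)
-/
set_option autoImplicit false

namespace MPcb27.TS

open Finset

theorem specTR3 : SpecTR3 := by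
  intro p _ C E D D' α β f N hN0 hN
  set a2 : ZMod p → ℝ := fun t => ∑ c ∈ C, ‖α t c‖ ^ 2 with ha2
  set b2 : ZMod p → ℝ := fun s => ∑ e ∈ E, ‖β s e‖ ^ 2 with hb2
  have ha0 : ∀ t, 0 ≤ a2 t := fun t => sum_nonneg fun _ _ => by positivity
  have hb0 : ∀ s, 0 ≤ b2 s := fun s => sum_nonneg fun _ _ => by positivity
  have h0 : ∑ t ∈ D, ∑ c ∈ C, ∑ s ∈ D', ∑ e ∈ E, α t c * β s e * f (t + c - (s + e)) =
      ∑ q ∈ D ×ˢ D', ∑ c ∈ C, ∑ e ∈ E, α q.1 c * β q.2 e * f ((q.1 - q.2) + (c - e)) := by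
    rw [sum_product]
    refine sum_congr rfl fun t _ => ?_
    rw [sum_comm]
    refine sum_congr rfl fun s _ => sum_congr rfl fun c _ => sum_congr rfl fun e _ => ?_
    have e1 : t + c - (s + e) = t - s + (c - e) := by ring
    rw [e1]
  have h1 : ‖∑ t ∈ D, ∑ c ∈ C, ∑ s ∈ D', ∑ e ∈ E, α t c * β s e * f (t + c - (s + e))‖ ≤
      ∑ q ∈ D ×ˢ D', N (q.1 - q.2) * (Real.sqrt (a2 q.1) * Real.sqrt (b2 q.2)) := by
    rw [h0]
    refine (norm_sum_le _ _).trans (sum_le_sum fun q _ => ?_)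
    exact hN (q.1 - q.2) (α q.1) (β q.2)
  have h2 : (∑ q ∈ D ×ˢ D', N (q.1 - q.2) * (Real.sqrt (a2 q.1) * Real.sqrt (b2 q.2))) ^ 2 ≤
      (∑ q ∈ D ×ˢ D', N (q.1 - q.2) ^ 2) *
        ∑ q ∈ D ×ˢ D', (Real.sqrt (a2 q.1) * Real.sqrt (b2 q.2)) ^ 2 :=
    sum_mul_sq_le_sq_mul_sq _ _ _
  have h3 : ∑ q ∈ D ×ˢ D', (Real.sqrt (a2 q.1) * Real.sqrt (b2 q.2)) ^ 2 =
      (∑ t ∈ D, a2 t) * ∑ s ∈ D', b2 s := by
    rw [sum_mul_sum, sum_product]
    refine sum_congr rfl fun t _ => sum_congr rfl fun s _ => ?_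
    rw [mul_pow, Real.sq_sqrt (ha0 t), Real.sq_sqrt (hb0 s)]
  rw [h3] at h2
  refine le_trans ?_ h2
  exact pow_le_pow_left₀ (norm_nonneg _) h1 2

end MPcb27.TS
end
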